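import Mathlib
import Pool.Agent.N848.OL.Stm

/-!
# Project OL (helper848), part IMP: better approximations at one prime
-/

set_option autoImplicit false

namespace Pool.Agent.N285.OL

open NumberField IsDedekindDomain Module Pool.Agent.N848.OL

theorem ring_lemma {R : Type} [CommRing R] (p : ℕ) (hp : p.Prime) (h2 : 2 < p) (M : ℕ)
    (hM : 2 ≤ M) (t : R) :
    (p : R) ^ (M + 1) ∣ (1 - (p : R) ^ (M - 1) * t) ^ p - (1 - (p : R) ^ M * t) := by
  obtain ⟨u, hu⟩ : ∃ u : R, u = -((p : R) ^ (M - 1) * t) := ⟨_, rfl⟩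
  have hpu : (p : R) * u = -((p : R) ^ M * t) := by
    rw [hu]
    have : (p : R) ^ M = (p : R) * (p : R) ^ (M - 1) := by
      rw [← pow_succ']
      congr 1
      omega
    rw [this]
    ring
  have e1 : (1 - (p : R) ^ (M - 1) * t) ^ p - (1 - (p : R) ^ M * t) =
      (u + 1) ^ p - (1 + (p : R) * u) := by
    rw [hpu, hu]
    ring
  have h3 := add_pow_prime_eq hp u 1
  have hsplit : ∑ k ∈ Finset.Ioo 0 p, u ^ (k - 1) * 1 ^ (p - k - 1) * ((p.choose k / p : ℕ) : R) =
      1 + ∑ k ∈ Finset.Ioo 1 p, u ^ (k - 1) * 1 ^ (p - k - 1) * ((p.choose k / p : ℕ) : R) := by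
    have h4 : Finset.Ioo 0 p = insert 1 (Finset.Ioo 1 p) := by
      ext k
      simp only [Finset.mem_Ioo, Finset.mem_insert]
      omega
    rw [h4, Finset.sum_insert (by simp)]
    congr 1
    rw [Nat.choose_one_right, Nat.div_self hp.pos]
    simp
  have hdiv : u ∣ ∑ k ∈ Finset.Ioo 1 p,
      u ^ (k - 1) * 1 ^ (p - k - 1) * ((p.choose k / p : ℕ) : R) := by
    refine Finset.dvd_sum fun k hk => ?_
    rw [Finset.mem_Ioo] at hk
    exact Dvd.dvd.mul_right (Dvd.dvd.mul_right (dvd_pow_self u (by omega)) _) _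
  obtain ⟨r, hr⟩ := hdiv
  have e2 : (u + 1) ^ p - (1 + (p : R) * u) = u ^ p + p * (u ^ 2 * r) := by
    rw [h3, hsplit, hr]
    ring
  have hud : (p : R) ^ (M - 1) ∣ u := by
    rw [hu]
    exact (dvd_neg.2 (dvd_mul_right _ _))
  rw [e1, e2]
  refine dvd_add ?_ ?_
  · have h5 : (p : R) ^ ((M - 1) * p) ∣ u ^ p := by
      rw [pow_mul]
      exact pow_dvd_pow_of_dvd hud p
    refine (pow_dvd_pow _ ?_).trans h5
    have : (M - 1) * 3 ≤ (M - 1) * p := Nat.mul_le_mul_left _ h2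
    omega
  · have h5 : (p : R) ^ ((M - 1) * 2) ∣ u ^ 2 := by
      rw [pow_mul]
      exact pow_dvd_pow_of_dvd hud 2
    have h6 : (p : R) * (p : R) ^ ((M - 1) * 2) ∣ p * (u ^ 2 * r) :=
      mul_dvd_mul_left _ (h5.mul_right r)
    rw [← pow_succ'] at h6
    exact (pow_dvd_pow _ (by omega)).trans h6

theorem t_IMP : S_IMP := by
  intro p _ hp2 K _ _ v x hx M
  have hp : p.Prime := Fact.out
  obtain ⟨V, hV⟩ : ∃ V, V = v.valuation K := ⟨_, rfl⟩
  have hpK : (p : K) ≠ 0 := by exact_mod_cast hp.ne_zero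
  have hVp : V (p : K) ≤ 1 := by
    rw [hV]
    have h1 := v.valuation_le_one (K := K) ((p : 𝓞 K))
    have e : algebraMap (𝓞 K) K ((p : ℕ) : 𝓞 K) = (p : K) := map_natCast (algebraMap (𝓞 K) K) p
    rw [← e]
    exact h1
  obtain ⟨y, hy1, hy2⟩ := hx
  rw [← hV] at hy1 hy2 ⊢
  by_cases h1 : V (p : K) = 1
  · refine ⟨y, hy1, ?_⟩
    rw [map_pow, h1, one_pow] at hy2
    rw [map_pow, h1, one_pow]
    exact hy2
  have hlt : V (p : K) < 1 := lt_of_le_of_ne hVp h1
  -- all exponents at least `2`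
  have key : ∀ j : ℕ, ∃ y : K, V (x * y ^ p) = 1 ∧ V (x * y ^ p - 1) ≤ V ((p : K) ^ (j + 2)) := by
    intro j
    induction j with
    | zero => exact ⟨y, hy1, hy2⟩
    | succ j ih =>
      obtain ⟨y, ha, hb⟩ := ih
      obtain ⟨t, ht⟩ : ∃ t : K, x * y ^ p - 1 = (p : K) ^ (j + 2) * t :=
        ⟨(x * y ^ p - 1) / (p : K) ^ (j + 2), by field_simp⟩
      have hpow0 : V ((p : K) ^ (j + 2)) ≠ 0 := by
        rw [Valuation.ne_zero_iff]
        exact pow_ne_zero _ hpK
      have hVt : V t ≤ 1 := by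
        rw [ht, map_mul] at hb
        have h3 : V ((p : K) ^ (j + 2)) * V t ≤ V ((p : K) ^ (j + 2)) * 1 := by rwa [mul_one]
        exact (mul_le_mul_iff_right₀ (zero_lt_iff.2 hpow0)).1 h3
      let R : Subring K := V.integer
      let tR : R := ⟨t, hVt⟩
      obtain ⟨s, hs⟩ := ring_lemma (R := R) p hp hp2 (j + 2) (by omega) tR
      have hsK : (1 - (p : K) ^ (j + 1) * t) ^ p - (1 - (p : K) ^ (j + 2) * t) =
          (p : K) ^ (j + 3) * (s : K) := by
        have h4 := congrArg (fun r : R => (r : K)) hs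
        have e : j + 2 - 1 = j + 1 := rfl
        rw [e] at h4
        push_cast at h4
        exact h4
      have hVs : V (s : K) ≤ 1 := s.2
      have hz : x * (y * (1 - (p : K) ^ (j + 1) * t)) ^ p - 1 =
          (p : K) ^ (j + 3) * ((1 + (p : K) ^ (j + 2) * t) * s - (p : K) ^ (j + 1) * t ^ 2) := by
        have e5 : x * y ^ p = 1 + (p : K) ^ (j + 2) * t := by rw [← ht]; ring
        have e6 : (1 - (p : K) ^ (j + 1) * t) ^ p =
            1 - (p : K) ^ (j + 2) * t + (p : K) ^ (j + 3) * (s : K) := by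
          rw [← hsK]; ring
        rw [mul_pow, ← mul_assoc, e5, e6]
        ring
      have hVpow : ∀ k : ℕ, V ((p : K) ^ k) ≤ 1 := by
        intro k
        rw [map_pow]
        exact pow_le_one₀ zero_le hVp
      have hbr : V ((1 + (p : K) ^ (j + 2) * t) * s - (p : K) ^ (j + 1) * t ^ 2) ≤ 1 := by
        have m1 : (p : K) ^ (j + 2) * t ∈ R := by
          show V _ ≤ 1
          rw [map_mul]
          exact mul_le_one' (hVpow _) hVt
        have m2 : (p : K) ^ (j + 1) * t ^ 2 ∈ R := by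
          show V _ ≤ 1
          rw [map_mul, map_pow V t]
          exact mul_le_one' (hVpow _) (pow_le_one₀ zero_le hVt)
        exact R.sub_mem (R.mul_mem (R.add_mem R.one_mem m1) s.2) m2
      have hfin : V (x * (y * (1 - (p : K) ^ (j + 1) * t)) ^ p - 1) ≤ V ((p : K) ^ (j + 1 + 2)) := by
        rw [hz, map_mul]
        exact mul_le_of_le_one_right' hbr
      refine ⟨y * (1 - (p : K) ^ (j + 1) * t), ?_, hfin⟩
      have hlt2 : V (x * (y * (1 - (p : K) ^ (j + 1) * t)) ^ p - 1) < 1 := by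
        refine lt_of_le_of_lt hfin ?_
        rw [map_pow]
        exact pow_lt_one₀ zero_le hlt (by omega)
      have e7 : x * (y * (1 - (p : K) ^ (j + 1) * t)) ^ p =
          1 + (x * (y * (1 - (p : K) ^ (j + 1) * t)) ^ p - 1) := by ring
      rw [e7]
      exact V.map_one_add_of_lt hlt2
  rcases Nat.lt_or_ge M 2 with hM | hM
  · refine ⟨y, hy1, hy2.trans ?_⟩
    rw [map_pow, map_pow]
    exact pow_le_pow_right_of_le_one' hVp hM.le
  · obtain ⟨y, ha, hb⟩ := key (M - 2)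
    have e : M - 2 + 2 = M := by omega
    rw [e] at hb
    exact ⟨y, ha, hb⟩

end Pool.Agent.N285.OL
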